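import Mathlib
import Pool.Agent.Helper30.TB.Def
import Pool.Agent.Helper30.HL.Def
import Pool.Agent.Helper30.HL.Main

open MeasureTheory Set Filter Topology Pool.Agent.Helper30.TB Pool.Agent.Helper30.HL

/-- **Before a loss of energy both helicities blow up.** There is an absolute constant `c > 0` with
the following property. Let `u` be a weak solution of the Navier-Stokes equations on the torus
`(ℝ / 2πℤ)³` on `[0,T]`, with a force that is square integrable in space and time (no energy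
inequality is assumed), which is a strong solution before the time `T` (in `L^∞H¹` and in `L²H²` on
`[0,T']` for every `T' < T`). Assume that the energy equality fails: the energy defect `δ` at the
time `T` is not zero. Let `‖u(t)‖ ≤ M` on `[0,T]`. Then `δ > 0`, and for `t < T` near `T`
* the energy `δ` is above every wave number `N` with `N^{5/2} M³ (T - t) ≤ c δ`;
* for both signs the helical component `u^σ` (the sum of the components of `u` which are
  eigenfunctions of the curl with eigenvalues of the sign `σ`) satisfies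
  `‖u^σ(t)‖²_{H^{1/2}} + 2 ν ∫₀ᵗ ‖u^σ‖²_{H^{3/2}} ds ≥ c δ^{7/5} M^{-6/5} (T - t)^{-2/5}`.
Hence the energy equality holds on `[0,T]` if for one sign the lower limit of
`(T - t)^{2/5} (‖u^σ(t)‖²_{H^{1/2}} + 2 ν ∫₀ᵗ ‖u^σ‖²_{H^{3/2}} ds)` is zero as `t → T`, in
particular if one helical component is in `L^∞(0,T;H^{1/2})` and in `L²(0,T;H^{3/2})`. -/
theorem Pool.Agent.Results.MP_a38b17_an.BothHelicities.result :
    (∃ c : ℝ, 0 < c ∧ ∀ (ν T M : ℝ) (u f : ℝ → Fld), 0 < ν → 0 < T → 0 < M →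
      IsWeakSolution ν T u f → IsStrongBefore T u → (∀ t ∈ Icc 0 T, nrm2 (u t) ≤ M ^ 2) →
      energyDefect ν u f T ≠ 0 →
      0 < energyDefect ν u f T ∧
      (∀ᶠ t in 𝓝[<] T, ∀ N : ℕ,
        (N : ℝ) ^ (5 / 2 : ℝ) * M ^ 3 * (T - t) ≤ c * energyDefect ν u f T →
        energyDefect ν u f T ≤ ∑' k, ({k : Wv | (N : ℝ) ^ 2 < nsq k}).indicator (msq (u t)) k) ∧
      (∀ σ : ℝ, σ = 1 ∨ σ = -1 → ∀ᶠ t in 𝓝[<] T,
        c * (energyDefect ν u f T) ^ (7 / 5 : ℝ) * M ^ (-(6 / 5) : ℝ) * (T - t) ^ (-(2 / 5) : ℝ)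
          ≤ sob (1 / 2) (hel σ (u t)) + 2 * ν * ∫ s in (0 : ℝ)..t, sob (3 / 2) (hel σ (u s)))) ∧
    (∀ (ν T : ℝ) (u f : ℝ → Fld), 0 < ν → 0 < T → IsWeakSolution ν T u f →
      IsStrongBefore T u →
      (∃ σ : ℝ, (σ = 1 ∨ σ = -1) ∧ ∀ ε : ℝ, 0 < ε → ∃ᶠ t in 𝓝[<] T,
        sob (1 / 2) (hel σ (u t)) + 2 * ν * (∫ s in (0 : ℝ)..t, sob (3 / 2) (hel σ (u s)))
          ≤ ε * (T - t) ^ (-(2 / 5) : ℝ)) →
      ∀ t ∈ Icc 0 T, energyDefect ν u f t = 0) ∧
    (∀ (v : Fld) (k : Wv) (j : Fin 3), Adm v →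
      hel 1 v k j + hel (-1) v k j = v k j ∧
      ∀ σ : ℝ, σ = 1 ∨ σ = -1 →
        vort (hel σ v) k j = ((σ * √(nsq k) : ℝ) : ℂ) * hel σ v k j) := by
  have hc0 := Pool.Agent.Helper30.HL.c0_pos
  have hc2 := Pool.Agent.Helper30.HL.c2_pos
  refine ⟨⟨min c0 c2, lt_min hc0 hc2, ?_⟩, ?_, ?_⟩
  · intro ν T M u f hν hT hM h hs hb hne
    have hd : 0 < energyDefect ν u f T :=
      lt_of_le_of_ne (defect_nonneg hν hT h hs hM.le hb) (Ne.symm hne)
    refine ⟨hd, ?_, ?_⟩
    · filter_upwards [conc hν hT h hs hM.le hb hd, Ioo_mem_nhdsLT hT] with t ht ht' N hN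
      have h1 : min c0 c2 * energyDefect ν u f T ≤ c0 * energyDefect ν u f T :=
        mul_le_mul_of_nonneg_right (min_le_left _ _) hd.le
      exact (ht N (hN.trans h1)).trans
        (tailE_anti (summable_msq h ⟨ht'.1.le, ht'.2.le⟩) (by omega))
    · intro σ hσ
      filter_upwards [blow hν hT h hs hM hb hd hσ, Ioo_mem_nhdsLT hT] with t ht ht'
      refine le_trans ?_ ht
      have h1 : 0 < T - t := sub_pos.mpr ht'.2
      have h2 : min c0 c2 ≤ c2 := min_le_right _ _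
      gcongr
  · rintro ν T u f hν hT h hs ⟨σ, hσ, hf⟩
    exact criterion hν hT h hs hσ hf
  · intro v k j hv
    refine ⟨hel_add v k j, fun σ hσ => vort_hel hv ?_ k j⟩
    rcases hσ with rfl | rfl <;> norm_num
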