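import Mathlib
import Pool.Graph.R_seed8.H772R2.NS.Pub
import Pool.Graph.R_seed8.H772R2.NS.PubBridge
import Pool.Agent.Helper30.EJ.Main

open MeasureTheory Set Filter Topology H772R2.NS.Pub
open scoped InnerProductSpace ENNReal

/-- **In the critical enstrophy class the energy defect is a sum of jumps.** There is an absolute
constant `C` with the following property. Let `Ω ⊆ ℝ³` be an open set and `u` a weak solution of the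
Navier-Stokes equations in `Ω × (0,T)` with the viscosity `ν` (no energy inequality is assumed), `D`
its energy defect, and assume that `K := liminf_{h → ∞} h^{1/2} ∫_{(0,T) ∩ {‖∇u‖ > h}} ‖∇u‖² dτ` is
finite. This is the case for `u` in the weak Lebesgue space `L^{5/2,∞}(0,T; H¹)`. Then
* `D(t) = ∑_{0 < τ ≤ t} a(τ) - ∑_{0 ≤ τ < t} b(τ)` on `[0,T]`, with nonnegative summable `a`, `b`;
* `∑ (a(τ)^{3/4} + b(τ)^{3/4}) ≤ C K`;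
* the kinetic energy `‖u‖²/2` has at every time `τ` the left limit `‖u(τ)‖²/2 + a(τ)` and the right
  limit `‖u(τ)‖²/2 + b(τ)`;
* if `u` is strongly continuous on `[0,T]` with values in `L²(Ω)³`, then the energy equality holds
  on `[0,T]`. -/
theorem Pool.Agent.Results.MP_a38b17_an.CriticalClassJumps.result :
    (∃ C : ℝ, ∀ (Ω : Set R3) (ν T : ℝ) (u : ℝ → L2 Ω R3) (G : ℝ → L2 Ω Mat) (f : ℝ → L2 Ω R3),
      IsOpen Ω → 0 < ν → 0 < T → IsWeakSolution Ω ν T u G f →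
      liminf (fun h : ℝ => ENNReal.ofReal (Real.sqrt h)
        * ∫⁻ τ in Ioo 0 T ∩ {τ | h < ‖G τ‖}, ‖G τ‖ₑ ^ 2) atTop ≠ ⊤ →
      (∃ a b : ℝ → ℝ, (∀ τ, 0 ≤ a τ ∧ 0 ≤ b τ) ∧ Summable a ∧ Summable b ∧
        (∀ t ∈ Icc 0 T, energyDefect ν u G f t
          = ∑' τ, (Ioc 0 t).indicator a τ - ∑' τ, (Ico 0 t).indicator b τ) ∧
        ∑' τ, ENNReal.ofReal (a τ ^ (3 / 4 : ℝ) + b τ ^ (3 / 4 : ℝ))
          ≤ ENNReal.ofReal C * liminf (fun h : ℝ => ENNReal.ofReal (Real.sqrt h)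
            * ∫⁻ τ in Ioo 0 T ∩ {τ | h < ‖G τ‖}, ‖G τ‖ₑ ^ 2) atTop ∧
        (∀ τ ∈ Ioc 0 T, Tendsto (fun s => ‖u s‖ ^ 2 / 2) (𝓝[<] τ) (𝓝 (‖u τ‖ ^ 2 / 2 + a τ))) ∧
        (∀ τ ∈ Ico 0 T, Tendsto (fun s => ‖u s‖ ^ 2 / 2) (𝓝[>] τ) (𝓝 (‖u τ‖ ^ 2 / 2 + b τ)))) ∧
      (ContinuousOn u (Icc 0 T) → ∀ t ∈ Icc 0 T, energyDefect ν u G f t = 0)) ∧
    (∀ (Ω : Set R3) (ν T : ℝ) (u : ℝ → L2 Ω R3) (G : ℝ → L2 Ω Mat) (f : ℝ → L2 Ω R3),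
      IsWeakSolution Ω ν T u G f →
      (∃ C' : ℝ, ∀ l : ℝ, 0 < l →
        volume {τ ∈ Ioo 0 T | l < ‖G τ‖} ≤ ENNReal.ofReal (C' / l ^ (5 / 2 : ℝ))) →
      liminf (fun h : ℝ => ENNReal.ofReal (Real.sqrt h)
        * ∫⁻ τ in Ioo 0 T ∩ {τ | h < ‖G τ‖}, ‖G τ‖ₑ ^ 2) atTop ≠ ⊤) := by
  refine ⟨⟨Pool.Agent.Helper30.EJ.cj, ?_⟩, ?_⟩
  · intro Ω ν T u G f hΩ hν hT hu hK
    have hu' := toNS hu
    exact ⟨Pool.Agent.Helper30.EJ.jumps hΩ hν.le hT hu' hK,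
      Pool.Agent.Helper30.EJ.eq_of_cont hΩ hν.le hT hu' hK⟩
  · rintro Ω ν T u G f hu ⟨C', hC'⟩
    exact Pool.Agent.Helper30.EJ.weak_class (toNS hu) hC'
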