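import Mathlib
import Pool.Graph.R_seed8.H772R2.NS.Pub
import Pool.Graph.R_seed8.H772R2.NS.PubBridge
import Pool.Graph.R_seed8.TH301.EQ.PubGood
import Pool.Agent.Helper30.DM.Dim

open MeasureTheory Set Filter Topology H772R2.NS.Pub Pool.Agent.TH301.EQ Pool.Agent.Helper30.DM
open scoped InnerProductSpace ENNReal

/-- **Exceptional times of small Hausdorff dimension.** Let `Ω ⊆ ℝ³` be an open set and `u` a weak
solution of the Navier-Stokes equations in `Ω × (0,T)` (no energy inequality is assumed) with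
gradient `G`, force `f ∈ L²(0,T; L²(Ω)³)` and energy defect `D`. For `t ∈ [0,T]` and `a > 0` let
`ExpAt T ‖G‖² a t` be the condition `∫_J ‖∇u‖² ≤ C |J|^a` for all short intervals `J ∋ t` (`C`
depends on `t`). It is known that the condition with `a = 1/2` (type I) at all times implies the energy
equality, and that the condition with some `a > 1/5` at `t` excludes a jump of `‖u‖` at `t`. Let
`θ n ≥ 0` be integrable weights and `N` a countable set.
1. Let `0 < σ n ≤ 1/2` and let `S n` be sets with `μH[σ n] (S n) = 0`. Then `D` maps the set of the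
   times `t` with `u(t) ∈ H¹_{0,σ}(Ω)`, of the good times (type I, or tame for some `θ n`) and of the
   times `t ∈ S n` with the exponent `(1 + 3 σ n)/5` (for some `n`) to a null set.
2. If the norm `‖u‖` does not jump at any time, then `D` has the intermediate value property.
3. If each time near which the energy equality fails is in `N` and the norm does not jump there, or is
   good, or is in some `S n` and has the exponent `(1 + 3 σ n)/5`, then `D = 0` on `[0,T]`.
4. Let `S n` be sets of the Hausdorff dimensions `d n < 1/2`. If each time near which the energy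
   equality fails is in `N` and the norm does not jump there, or is good, or is in some `S n` and has
   an exponent `a > (1 + 3 d n)/5` (`a` depends on the time), then `D = 0` on `[0,T]`. -/
theorem Pool.Agent.Results.MP_a38b17_an.ExceptionalTimes.result
    {Ω : Set R3} (hΩ : IsOpen Ω) {ν T : ℝ} (hν : 0 < ν) (hT : 0 < T)
    {u : ℝ → L2 Ω R3} {G : ℝ → L2 Ω Mat} {f : ℝ → L2 Ω R3} (hu : IsWeakSolution Ω ν T u G f)
    (hf : IntegrableOn (fun τ => ‖f τ‖ ^ 2) (Ioo 0 T))
    {θ : ℕ → ℝ → ℝ} (h0 : ∀ n t, 0 ≤ θ n t) (hi : ∀ n, IntegrableOn (θ n) (Ioo 0 T))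
    {N : Set ℝ} (hN : N.Countable) (hJ : ∀ t ∈ N, NoJump T u t) :
    (∀ (σ : ℕ → ℝ) (S : ℕ → Set ℝ), (∀ n, 0 < σ n ∧ σ n ≤ 1 / 2) →
      (∀ n, Measure.hausdorffMeasure (σ n) (S n) = 0) →
      volume (energyDefect ν u G f '' {t | t ∈ Icc 0 T ∧ (u t ∈ H10sigma Ω ∨
        Good T (fun τ => ‖G τ‖ ^ 2) θ t ∨
        ∃ n, t ∈ S n ∧ ExpAt T (fun τ => ‖G τ‖ ^ 2) ((1 + 3 * σ n) / 5) t)}) = 0 ∧
      ((∀ t ∈ rough T (energyDefect ν u G f), t ∈ N ∨ Good T (fun τ => ‖G τ‖ ^ 2) θ t ∨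
        ∃ n, t ∈ S n ∧ ExpAt T (fun τ => ‖G τ‖ ^ 2) ((1 + 3 * σ n) / 5) t) →
        ∀ t ∈ Icc 0 T, energyDefect ν u G f t = 0)) ∧
    ((∀ t ∈ Icc 0 T, NoJump T u t) → ∀ a ∈ Icc 0 T, ∀ b ∈ Icc 0 T,
      uIcc (energyDefect ν u G f a) (energyDefect ν u G f b)
        ⊆ energyDefect ν u G f '' uIcc a b) ∧
    (∀ S : ℕ → Set ℝ, (∀ n, dimH (S n) < 1 / 2) →
      (∀ t ∈ rough T (energyDefect ν u G f), t ∈ N ∨ Good T (fun τ => ‖G τ‖ ^ 2) θ t ∨
        ∃ n, t ∈ S n ∧ ∃ a, (1 + 3 * (dimH (S n)).toReal) / 5 < a ∧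
          ExpAt T (fun τ => ‖G τ‖ ^ 2) a t) →
      ∀ t ∈ Icc 0 T, energyDefect ν u G f t = 0) :=
  ⟨fun _ _ hσ hS => ⟨pub_small_null hΩ hν.le hT hu hf h0 hi hσ hS,
    fun h => pub_small_eq hΩ hν.le hT hu hf h0 hi hσ hS hN hJ h⟩,
    fun h _ ha _ hb => pub_darboux hΩ hν.le hT hu h ha hb,
    fun _ hS h => pub_dim_eq hΩ hν.le hT hu hf h0 hi hS hN hJ h⟩
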