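import Mathlib
import Pool.Agent.Helper30.TB.Def
import Pool.Agent.Helper30.TB.Main

open MeasureTheory Set Filter Topology Pool.Agent.Helper30.TB
open scoped ENNReal

/-- **Bounded energies in the bands `N < |k| ≤ N^{5/4}`: the energy defect is a sum of jumps.** There
is an absolute constant `C` with the following property. Let `u` be a weak solution of the
Navier-Stokes equations on the torus `(ℝ / 2πℤ)³`, with a force that is square integrable in space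
and time (no energy inequality is assumed), let `D` be its energy defect, and assume that
`K = liminf_{N → ∞} N^{5/2} ∫₀ᵀ ∑_{N < |k| ≤ N^{5/4}} |u_k|² dτ` is finite. Then
* `D(t) = ∑_{0 < τ ≤ t} a(τ) - ∑_{0 ≤ τ < t} b(τ)` on `[0,T]`, with nonnegative summable `a`, `b`;
* `∑ (√a(τ) + √b(τ)) ≤ C K`;
* the kinetic energy `‖u‖²/2` has at every time `τ` the left limit `‖u(τ)‖²/2 + a(τ)` and the right
  limit `‖u(τ)‖²/2 + b(τ)`;
* if `K = 0`, or if `u` is strongly continuous in `L²` on `[0,T]`, then the energy equality holds on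
  `[0,T]`.
`K` is finite if `N^{5/2} ∫₀ᵀ ∑_{N < |k| ≤ 2N} |u_k|² dτ` is bounded. -/
theorem Pool.Agent.Results.MP_a38b17_an.SpectralBandJumps.result :
    (∃ C : ℝ, ∀ (ν T : ℝ) (u f : ℝ → Fld), 0 < ν → 0 < T → IsWeakSolution ν T u f →
      bandK T u ≠ ⊤ →
      (∃ a b : ℝ → ℝ, (∀ τ, 0 ≤ a τ ∧ 0 ≤ b τ) ∧ Summable a ∧ Summable b ∧
        (∀ t ∈ Icc 0 T, energyDefect ν u f t
          = ∑' τ, (Ioc 0 t).indicator a τ - ∑' τ, (Ico 0 t).indicator b τ) ∧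
        ∑' τ, ENNReal.ofReal (√(a τ) + √(b τ)) ≤ ENNReal.ofReal C * bandK T u ∧
        (∀ τ ∈ Ioc 0 T, Tendsto (fun s => nrm2 (u s) / 2) (𝓝[<] τ) (𝓝 (nrm2 (u τ) / 2 + a τ))) ∧
        (∀ τ ∈ Ico 0 T,
          Tendsto (fun s => nrm2 (u s) / 2) (𝓝[>] τ) (𝓝 (nrm2 (u τ) / 2 + b τ)))) ∧
      (bandK T u = 0 → ∀ t ∈ Icc 0 T, energyDefect ν u f t = 0) ∧
      ((∀ t ∈ Icc 0 T, Tendsto (fun s => nrm2 (u s - u t)) (𝓝[Icc 0 T] t) (𝓝 0)) →
        ∀ t ∈ Icc 0 T, energyDefect ν u f t = 0)) ∧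
    (∀ (ν T : ℝ) (u f : ℝ → Fld), 0 < ν → 0 < T → IsWeakSolution ν T u f →
      (∃ C' : ℝ, ∀ N : ℕ, 1 ≤ N → (N : ℝ) ^ (5 / 2 : ℝ) * ∫ τ in (0 : ℝ)..T,
        ∑' k, ({k : Wv | (N : ℝ) ^ 2 < nsq k ∧ nsq k ≤ (2 * (N : ℝ)) ^ 2}).indicator
          (msq (u τ)) k ≤ C') →
      bandK T u ≠ ⊤) := by
  refine ⟨⟨2 * √2 * cb, ?_⟩, ?_⟩
  · intro ν T u f _ hT hu hK
    exact ⟨jumps hT hu hK, eq_of_zero hT hu, eq_of_cont hT hu hK⟩
  · rintro ν T u f _ hT hu ⟨C', hC'⟩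
    exact class_ne_top hT.le hu hC'
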